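import Pool.Agent.Helper18.SU.Goals2

set_option autoImplicit false

/-!
# E1B: ancestors in a set of sources (MP_f2ad72_co)
-/

namespace Pool.Agent.Helper85.SU

open Pool.Agent.Helper18.SU

theorem mem_anc {W : Type} [Fintype W] (r : W) (par : W → W) (sgn : W → Bool) (w : W) :
    w ∈ anc r par sgn ↔ ∀ k : ℕ, par^[k] w ≠ r → sgn (par^[k] w) = false := by
  unfold anc
  simp

theorem mem_nb {V : Type} (A : V → V → Prop) (d : Bool) (X : Finset V) (x y : V) :
    y ∈ nb A d X x ↔ y ∈ X ∧ Arc A d x y := by
  unfold nb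
  simp

theorem mem_tops {W : Type} [Fintype W] (par : W → W) (K : Finset W) (c : W) :
    c ∈ tops par K ↔ c ∉ K ∧ par c ∈ K := by
  unfold tops
  simp

theorem E1B (h1 : EX2_stmt) (h2 : LF_stmt) (_h3 : DSC_stmt) (_h4 : DEG_stmt) : E1B_stmt := by
  intro W V _ _ _ _ A hA r par dep hR sgn LO hB s hs B X hBX hX hU f₀ hf₀
  obtain ⟨b1, -, b3, -, -⟩ := id hB
  have hparr : par r = r := hR.2.1
  have hrA : r ∈ anc r par sgn := by
    rw [mem_anc]
    intro k hk
    exact absurd (Function.iterate_fixed hparr k) hk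
  have hclA : ∀ v ∈ anc r par sgn, par v ∈ anc r par sgn := by
    intro v hv
    rw [mem_anc] at hv ⊢
    intro k hk
    have := hv (k + 1)
    rw [Function.iterate_succ_apply] at this
    exact this hk
  have hrLO : r ∉ LO := fun h => (b1 r h).1 rfl
  have hsub : anc r par sgn ⊆ Finset.univ \ LO := by
    intro v hv
    rw [Finset.mem_sdiff]
    refine ⟨Finset.mem_univ _, fun hvL => ?_⟩
    rw [mem_anc] at hv
    have e1 := hv 0 (b1 v hvL).1
    have e2 := (b1 v hvL).2.2
    simp only [Function.iterate_zero, id_eq] at e1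
    rw [e1] at e2
    exact Bool.false_ne_true e2
  have hclS : ∀ v ∈ Finset.univ \ LO, par v ∈ Finset.univ \ LO := by
    intro v _
    rw [Finset.mem_sdiff]
    refine ⟨Finset.mem_univ _, fun h => ?_⟩
    by_cases hvr : v = r
    · rw [hvr, hparr] at h
      exact hrLO h
    · exact (b3 v hvr).1 h
  have hScard : (Finset.univ \ LO).card = s := by
    have := Finset.card_sdiff_add_card_eq_card (Finset.subset_univ LO)
    rw [Finset.card_univ] at this
    omega
  have hE0 : Emb A r par sgn (anc r par sgn) Finset.univ f₀ :=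
    ⟨fun _ _ => Finset.mem_univ _, hf₀.2.1, hf₀.2.2⟩
  have hsgn : ∀ c ∈ tops par (anc r par sgn), sgn c = true := by
    intro c hc
    rw [mem_tops] at hc
    by_contra hne
    have hf : sgn c = false := by simpa using hne
    apply hc.1
    rw [mem_anc]
    intro k hk
    cases k with
    | zero => exact hf
    | succ k =>
      rw [Function.iterate_succ_apply] at hk ⊢
      exact (mem_anc r par sgn (par c)).1 hc.2 k hk
  obtain ⟨f, hf, hf0, -⟩ := h1 W V A hA r par dep hR sgn (anc r par sgn) (Finset.univ \ LO)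
    hrA hclA hsub hclS f₀ hE0 (fun c => nb A true X (f₀ (par c)))
    (by
      intro c hc _
      rw [hScard]
      exact hX _ (hf₀.1 _ ((mem_tops par _ c).1 hc).2))
    (by
      intro c hc _ y hy
      rw [mem_nb] at hy
      rw [Finset.mem_sdiff, mem_nb, hsgn c hc]
      refine ⟨⟨Finset.mem_univ _, hy.2⟩, fun hy2 => ?_⟩
      obtain ⟨w, hw, rfl⟩ := Finset.mem_image.1 hy2
      exact (Finset.disjoint_left.1 hBX (hf₀.1 w hw)) hy.1)
  have hunion : LO ∪ (∅ : Finset W) = LO := Finset.union_empty LO
  have hfr : f r = f₀ r := hf0 r hrA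
  have hfrB : f r ∈ B := by
    rw [hfr]
    exact hf₀.1 r hrA
  have hcard : LO.card ≤ (nb A true Finset.univ (f r) \
      (Finset.univ \ (LO ∪ (∅ : Finset W))).image f).card := by
    rw [hunion]
    have e1 := hU _ hfrB
    have e2 : ((Finset.univ \ LO).image f).card ≤ s := by
      rw [← hScard]
      exact Finset.card_image_le
    have e3 := Finset.le_card_sdiff ((Finset.univ \ LO).image f) (nb A true Finset.univ (f r))
    omega
  refine h2 W V A r r par dep hR sgn LO ∅ hB f ?_ hcard ?_ ?_
  · rw [hunion]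
    exact hf
  · simp
  · rw [Finset.card_empty, add_zero]
    exact hcard.trans (Finset.card_le_card Finset.subset_union_left)

end Pool.Agent.Helper85.SU
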