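import Pool.Agent.Helper18.SU.Goals2
import Pool.Agent.Helper85.SU.E1B

set_option autoImplicit false

/-!
# E2N: the root side in `B`, the other side in `X` (MP_f2ad72_co)
-/

namespace Pool.Agent.Helper85.SU

open Pool.Agent.Helper18.SU

theorem mem_dsc {W : Type} [Fintype W] (par : W → W) (c w : W) :
    w ∈ dsc par c ↔ ∃ k : ℕ, par^[k] w = c := by
  unfold dsc
  simp

theorem mem_dsi {W : Type} [Fintype W] (par : W → W) (S : Finset W) (c w : W) :
    w ∈ dsi par S c ↔ w ∈ dsc par c ∧ w ∈ S := by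
  unfold dsi
  simp

theorem E2N (h1 : SUBT_stmt) (h2 : EX2_stmt) (h3 : LF_stmt) (h4 : DSC_stmt) (_h5 : DEG_stmt) :
    E2N_stmt := by
  intro W V _ _ _ _ A hA r u par dep hR sgn LO LI hB s hs hw B' X hBX hB'c hX hU1 hU2
  obtain ⟨k, hkr, hks⟩ := hw
  obtain ⟨b1, b2, b3, b4, b5⟩ := id hB
  have hparr : par r = r := hR.2.1
  obtain ⟨d1, d2, d3, d4, -⟩ := h4 W r par dep hR
  set S : Finset W := Finset.univ \ (LO ∪ LI) with hSdef
  set w : W := par^[k] u with hwdef
  have hmS : ∀ v, v ∈ S ↔ v ∉ LO ∧ v ∉ LI := by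
    intro v
    rw [hSdef, Finset.mem_sdiff, Finset.mem_union, not_or]
    exact ⟨fun h => h.2, fun h => ⟨Finset.mem_univ _, h⟩⟩
  have hrS : r ∈ S := (hmS r).2 ⟨fun h => (b1 r h).1 rfl, fun h => (b2 r h).1 rfl⟩
  have huS : u ∈ S := (hmS u).2 ⟨b4, b5⟩
  have hcl : ∀ v, par v ∈ S := by
    intro v
    by_cases hvr : v = r
    · rw [hvr, hparr]
      exact hrS
    · exact (hmS _).2 (b3 v hvr)
  have hwS : w ∈ S := by
    rw [hwdef]
    cases k with
    | zero => exact huS
    | succ k =>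
      rw [Function.iterate_succ_apply']
      exact hcl _
  have hdisj : Disjoint LO LI := by
    rw [Finset.disjoint_left]
    intro c hc hc'
    have e1 := (b1 c hc).2.2
    have e2 := (b2 c hc').2.2
    rw [e1] at e2
    exact Bool.false_ne_true e2.symm
  have hScard : S.card = s := by
    have e1 := Finset.card_sdiff_add_card_eq_card (Finset.subset_univ (LO ∪ LI))
    rw [Finset.card_univ, Finset.card_union_of_disjoint hdisj, ← hSdef] at e1
    omega
  have hrw : r ∉ dsc par w := by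
    intro h
    have := d4 w r h (Ne.symm hkr)
    rw [hR.1] at this
    omega
  set S₀ : Finset W := S \ dsc par w with hS₀def
  have hmS₀ : ∀ v, v ∈ S₀ ↔ v ∈ S ∧ v ∉ dsc par w := fun v => Finset.mem_sdiff
  have hrS₀ : r ∈ S₀ := (hmS₀ r).2 ⟨hrS, hrw⟩
  have hclS₀ : ∀ v ∈ S₀, par v ∈ S₀ := fun v hv =>
    (hmS₀ _).2 ⟨hcl v, fun h => ((hmS₀ v).1 hv).2 (d3 w v h)⟩
  have hsub : S₀ ⊆ S := Finset.sdiff_subset
  have hS₀card : S₀.card ≤ s := by
    rw [← hScard]
    exact Finset.card_le_card hsub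
  obtain ⟨f₀, hf₀⟩ := h1 W V A hA r par dep hR sgn S₀ B' (by omega)
  have hE0 : Emb A r par sgn S₀ Finset.univ f₀ :=
    ⟨fun _ _ => Finset.mem_univ _, hf₀.2.1, hf₀.2.2⟩
  have htop : ∀ c ∈ tops par S₀, c ∈ S → c = w := by
    intro c hc hcS
    rw [mem_tops] at hc
    by_contra hne
    have e1 : c ∈ dsc par w := by
      by_contra h
      exact hc.1 ((hmS₀ c).2 ⟨hcS, h⟩)
    exact ((hmS₀ _).1 hc.2).2 (d2 w c e1 hne)
  have hwtop : w ∈ tops par S₀ := by
    rw [mem_tops]
    refine ⟨fun h => ((hmS₀ w).1 h).2 (d1 w), (hmS₀ _).2 ⟨hcl w, fun h => ?_⟩⟩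
    have e1 := hR.2.2 w hkr
    have e2 : par w ≠ w := by
      intro h'
      rw [h'] at e1
      omega
    have := d4 w (par w) h e2
    omega
  obtain ⟨f, hf, hf0, hfO⟩ := h2 W V A hA r par dep hR sgn S₀ S hrS₀ hclS₀ hsub
    (fun v _ => hcl v) f₀ hE0 (fun c => nb A true X (f₀ (par c)))
    (by
      intro c hc _
      rw [hScard]
      exact hX _ (hf₀.1 _ ((mem_tops par _ c).1 hc).2))
    (by
      intro c hc hcS y hy
      rw [mem_nb] at hy
      rw [Finset.mem_sdiff, mem_nb, htop c hc hcS, hks]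
      rw [htop c hc hcS] at hy
      refine ⟨⟨Finset.mem_univ _, hy.2⟩, fun hy2 => ?_⟩
      obtain ⟨v, hv, rfl⟩ := Finset.mem_image.1 hy2
      exact (Finset.disjoint_left.1 hBX (hf₀.1 v hv)) hy.1)
  have hfrB : f r ∈ B' := by
    rw [hf0 r hrS₀]
    exact hf₀.1 r hrS₀
  have hfuX : f u ∈ X := by
    have hu : u ∈ dsi par S w := (mem_dsi par S w u).2 ⟨(mem_dsc par w u).2 ⟨k, rfl⟩, huS⟩
    have := hfO w hwtop hwS u hu
    exact ((mem_nb _ _ _ _ _).1 this).1
  have him : (S.image f).card ≤ s := by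
    rw [← hScard]
    exact Finset.card_image_le
  have c1 : LO.card + LI.card ≤ (nb A true Finset.univ (f r) \ S.image f).card := by
    have e1 := hU1 _ hfrB
    have e3 := Finset.le_card_sdiff (S.image f) (nb A true Finset.univ (f r))
    omega
  have c2 : LO.card + LI.card ≤ (nb A false Finset.univ (f u) \ S.image f).card := by
    have e1 := hU2 _ hfuX
    have e3 := Finset.le_card_sdiff (S.image f) (nb A false Finset.univ (f u))
    omega
  have c3 : LO.card ≤ (nb A true Finset.univ (f r) \ S.image f).card := by omega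
  have c4 : LI.card ≤ (nb A false Finset.univ (f u) \ S.image f).card := by omega
  exact h3 W V A r u par dep hR sgn LO LI hB f hf c3 c4
    (c1.trans (Finset.card_le_card Finset.subset_union_left))

end Pool.Agent.Helper85.SU
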